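import Pool.Agent.H72.PER.Targets
import Pool.Agent.H72.HRA.Targets

/-!
Reduction of `HalfRankPlus` to linearly independent logarithms (target RDK of the board
per_modules).
-/

set_option autoImplicit false

open Module Filter MvPolynomial

namespace Pool.Agent.H89.PER

open Pool.Agent.H72.HR
open Pool.Agent.H72.PER
open Pool.Agent.H72.BF (AlgB)
open Pool.Agent.H72.HRA (MvC)

theorem algB_mo {δ δ' : ℕ} {A A' : ℝ} {x : ℂ} (h : AlgB δ A x) (hδ : δ ≤ δ') (hA : A ≤ A') :
    AlgB δ' A' x := by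
  obtain ⟨p, h0, h1, h2, h3⟩ := h
  exact ⟨p, h0, h1.trans hδ, fun i => (h2 i).trans hA, h3⟩

/-- the inverse of a nonzero integer -/
theorem algB_inv (D : ℤ) (hD : D ≠ 0) {δ : ℕ} (hδ : 1 ≤ δ) {A : ℝ} (hA : |(D : ℝ)| ≤ A) :
    AlgB δ A (((D : ℂ))⁻¹) := by
  have hD1 : (1 : ℝ) ≤ |(D : ℝ)| := by
    rw [← Int.cast_abs]
    exact_mod_cast Int.one_le_abs hD
  have hdeg : (Polynomial.C D * Polynomial.X + Polynomial.C (-1) : Polynomial ℤ).natDegree = 1 :=
    Polynomial.natDegree_linear hD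
  refine ⟨Polynomial.C D * Polynomial.X + Polynomial.C (-1), ?_, ?_, ?_, ?_⟩
  · intro h
    rw [h] at hdeg
    simp at hdeg
  · rw [hdeg]
    exact hδ
  · intro i
    rw [Polynomial.coeff_add, Polynomial.coeff_C_mul, Polynomial.coeff_X, Polynomial.coeff_C]
    rcases i with _ | _ | i
    · simp
      linarith
    · simpa using hA
    · simp
      linarith [abs_nonneg (D : ℝ)]
  · have hDc : (D : ℂ) ≠ 0 := by exact_mod_cast hD
    simp [hDc]

/-- integer relations: the rational coordinates -/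
theorem coords (n : ℕ) (z : Fin n → ℂ) (K : Set (Fin n))
    (hK : ∀ m : Fin n → ℤ, ∑ k, (m k : ℂ) * z k = 0 → ∀ k ∈ K, m k = 0) :
    ∃ (n' : ℕ) (e : Fin n' → Fin n) (D : ℤ) (s : Fin n → Fin n' → ℤ), D ≠ 0 ∧
      LinearIndependent ℚ (z ∘ e) ∧ (∀ k ∈ K, ∃ a, e a = k) ∧
      (∀ i, (D : ℂ) * z i = ∑ a, (s i a : ℂ) * z (e a)) ∧
      ∀ a, e a ∈ K → ∀ i, s i a = if i = e a then D else 0 := by
  classical
  -- independence on K
  have hKi : LinearIndepOn ℚ z K := by
    unfold LinearIndepOn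
    rw [← LinearIndependent.iff_fractionRing ℤ ℚ, Fintype.linearIndependent_iff]
    intro g hg k
    have h1 := hK (fun i => if h : i ∈ K then g ⟨i, h⟩ else 0) ?_ k.1 k.2
    · simpa using h1
    · have h2 : ∑ i, (((if h : i ∈ K then g ⟨i, h⟩ else 0 : ℤ)) : ℂ) * z i
          = ∑ i : K, (g i : ℂ) * z i := by
        rw [← Finset.sum_subset (Finset.subset_univ (Finset.univ.filter (fun i => i ∈ K)))]
        · rw [Finset.sum_subtype (Finset.univ.filter (fun i => i ∈ K)) (p := fun i => i ∈ K)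
            (by simp)]
          refine Finset.sum_congr rfl fun i _ => ?_
          simp
        · intro i _ hi
          have : i ∉ K := by simpa using hi
          simp [this]
      rw [h2]
      simpa [zsmul_eq_mul] using hg
  obtain ⟨b, -, hKb, hspan, hb⟩ := exists_linearIndepOn_extension hKi (Set.subset_univ K)
  obtain ⟨n', ⟨ee⟩⟩ := Finite.exists_equiv_fin b
  let e : Fin n' → Fin n := fun a => (ee.symm a : Fin n)
  have hli : LinearIndependent ℚ (z ∘ e) := by
    have h1 : LinearIndependent ℚ (fun x : b => z x) := hb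
    exact h1.comp ee.symm ee.symm.injective
  have hsp : ∀ i, ∃ r : Fin n' → ℚ, ∑ a, r a • z (e a) = z i := by
    intro i
    have h1 : z i ∈ Submodule.span ℚ (z '' b) := hspan (Set.mem_image_of_mem _ (Set.mem_univ i))
    have h2 : z '' b = Set.range (fun a => z (e a)) := by
      ext x
      constructor
      · rintro ⟨i, hi, rfl⟩
        exact ⟨ee ⟨i, hi⟩, by simp [e]⟩
      · rintro ⟨a, rfl⟩
        exact ⟨e a, (ee.symm a).2, rfl⟩
    rw [h2, Submodule.mem_span_range_iff_exists_fun] at h1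
    exact h1
  choose r hr using hsp
  obtain ⟨⟨D, hD⟩, hDi⟩ := IsLocalization.exist_integer_multiples_of_finite (nonZeroDivisors ℤ)
    (fun p : Fin n × Fin n' => r p.1 p.2)
  have hD0 : D ≠ 0 := nonZeroDivisors.ne_zero hD
  choose s0 hs0 using fun p : Fin n × Fin n' => hDi p
  have hs : ∀ i a, ((s0 (i, a) : ℤ) : ℚ) = D * r i a := by
    intro i a
    have := hs0 (i, a)
    simpa [zsmul_eq_mul] using this
  have hrel : ∀ i, (D : ℂ) * z i = ∑ a, ((s0 (i, a) : ℤ) : ℂ) * z (e a) := by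
    intro i
    rw [← hr i, Finset.mul_sum]
    refine Finset.sum_congr rfl fun a _ => ?_
    have h1 : (((s0 (i, a) : ℤ) : ℚ) : ℂ) = ((D * r i a : ℚ) : ℂ) := by rw [hs i a]
    push_cast at h1
    rw [h1, Rat.smul_def]
    ring
  refine ⟨n', e, D, fun i a => s0 (i, a), hD0, hli, ?_, hrel, ?_⟩
  · intro k hk
    exact ⟨ee ⟨k, hKb hk⟩, by simp [e]⟩
  · intro a ha i
    have hinj : Function.Injective e := fun x y hxy => by
      have : (ee.symm x : Fin n) = ee.symm y := hxy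
      exact ee.symm.injective (Subtype.ext this)
    have h1 := hK (fun k => (if i = k then D else 0) - ∑ x, if e x = k then s0 (i, x) else 0)
      ?_ (e a) ha
    · simp only [hinj.eq_iff, Finset.sum_ite_eq', Finset.mem_univ, if_true] at h1
      linarith
    · have h2 : ∀ k, ((((if i = k then D else 0) - ∑ x, if e x = k then s0 (i, x) else 0 : ℤ)) : ℂ)
          * z k = (if i = k then (D : ℂ) * z k else 0)
            - ∑ x, if e x = k then ((s0 (i, x) : ℤ) : ℂ) * z k else 0 := by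
        intro k
        push_cast
        rw [sub_mul, Finset.sum_mul]
        congr 1
        · split_ifs <;> simp
        · refine Finset.sum_congr rfl fun x _ => ?_
          split_ifs <;> simp
      rw [Finset.sum_congr rfl fun k _ => h2 k, Finset.sum_sub_distrib, Finset.sum_comm]
      simp only [Finset.sum_ite_eq, Finset.mem_univ, if_true]
      rw [hrel i, sub_self]

/-- rational combinations of entries with a common denominator -/
theorem algB_comb (hPOL : Pool.Agent.H72.HRA.T_POL) (n δ c1 : ℕ) : ∃ δ' c' : ℕ,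
    ∀ (D : ℤ) (s : Fin n → ℤ), D ≠ 0 → |(D : ℝ)| ≤ 2 ^ c1 → (∀ i, |((s i : ℤ) : ℝ)| ≤ 2 ^ c1) →
    ∀ (H : ℝ), 2 ≤ H → ∀ w : Fin n → ℂ, (∀ i, AlgB δ H (w i)) →
      AlgB δ' (H ^ c') (((D : ℂ))⁻¹ * ∑ i, (s i : ℂ) * w i) := by
  obtain ⟨δ', c', hpol⟩ := hPOL (Option (Fin n)) (max δ 1) 2
  refine ⟨δ', (c1 + 1) * c', ?_⟩
  intro D s hD hDb hsb H hH w hw
  have hH1 : (1 : ℝ) ≤ H := by linarith
  set H1 : ℝ := H ^ (c1 + 1) with hH1d
  have h2H : (2 : ℝ) ^ c1 ≤ H1 := by
    calc (2 : ℝ) ^ c1 ≤ H ^ c1 := by gcongr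
      _ ≤ H ^ (c1 + 1) := pow_le_pow_right₀ hH1 (Nat.le_succ _)
  have hHH : H ≤ H1 := by
    calc H = H ^ 1 := (pow_one H).symm
      _ ≤ H ^ (c1 + 1) := pow_le_pow_right₀ hH1 (by omega)
  let f : Fin n → (Option (Fin n) →₀ ℕ) := fun i =>
    Finsupp.single none 1 + Finsupp.single (some i) 1
  have hf : Function.Injective f := by
    intro i j hij
    have h1 : Finsupp.single (some i) 1 = (Finsupp.single (some j) 1 : Option (Fin n) →₀ ℕ) :=
      add_left_cancel hij
    have h2 := (Finsupp.single_left_inj (one_ne_zero)).1 h1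
    exact Option.some.inj h2
  let Q : MvPolynomial (Option (Fin n)) ℤ := ∑ i, monomial (f i) (s i)
  have hQd : Q.totalDegree ≤ 2 := by
    refine (totalDegree_finsetSum _ _).trans ?_
    refine Finset.sup_le fun i _ => ?_
    refine (totalDegree_monomial_le _ _).trans ?_
    rw [Finsupp.sum_add_index' (by simp) (by simp)]
    simp
  have hQc : ∀ m, |((Q.coeff m : ℤ) : ℝ)| ≤ H1 := by
    intro m
    have h1 : Q.coeff m = ∑ i, if f i = m then s i else 0 := by
      simp only [Q, coeff_sum, coeff_monomial]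
    rw [h1]
    by_cases hm : ∃ i, f i = m
    · obtain ⟨i, rfl⟩ := hm
      simp only [hf.eq_iff, Finset.sum_ite_eq', Finset.mem_univ, if_true]
      exact (hsb i).trans h2H
    · push Not at hm
      rw [Finset.sum_eq_zero fun i _ => if_neg (hm i)]
      simp
      linarith
  let v : Option (Fin n) → ℂ := fun o => o.elim ((D : ℂ))⁻¹ w
  have hv : ∀ o, AlgB (max δ 1) H1 (v o) := by
    intro o
    rcases o with _ | i
    · exact algB_inv D hD (le_max_right _ _) (hDb.trans h2H)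
    · exact algB_mo (hw i) (le_max_left _ _) hHH
  have h3 := hpol H1 (hH.trans hHH) v hv Q hQd hQc
  have h4 : aeval v Q = ((D : ℂ))⁻¹ * ∑ i, (s i : ℂ) * w i := by
    simp only [Q, map_sum, aeval_monomial, f]
    rw [Finset.mul_sum]
    refine Finset.sum_congr rfl fun i _ => ?_
    rw [Finsupp.prod_add_index' (by simp) (by intros; rw [pow_add])]
    simp [v]
    ring
  rw [h4] at h3
  have h5 : H1 ^ c' = H ^ ((c1 + 1) * c') := by
    rw [hH1d, ← pow_mul]
  rw [← h5]
  exact h3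

theorem pf_RDK (h : HalfRankPlus0) (hPOL : Pool.Agent.H72.HRA.T_POL) : HalfRankPlus := by
  intro n z halg K hK δ l c p q hp hq
  obtain ⟨n', e, D, s, hD, hli, hKe, hrel, hcol⟩ := coords n z K hK
  have hDc : (D : ℂ) ≠ 0 := by exact_mod_cast hD
  obtain ⟨c1, hc1D, hc1s⟩ : ∃ c1 : ℕ, |(D : ℝ)| ≤ 2 ^ c1 ∧
      ∀ i a, |((s i a : ℤ) : ℝ)| ≤ 2 ^ c1 := by
    obtain ⟨x, hx⟩ : ∃ x : ℝ, |(D : ℝ)| ≤ x ∧ ∀ i a, |((s i a : ℤ) : ℝ)| ≤ x := by
      refine ⟨|(D : ℝ)| + ∑ i, ∑ a, |((s i a : ℤ) : ℝ)|, ?_, ?_⟩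
      · have : 0 ≤ ∑ i, ∑ a, |((s i a : ℤ) : ℝ)| :=
          Finset.sum_nonneg fun i _ => Finset.sum_nonneg fun a _ => abs_nonneg _
        linarith
      · intro i a
        have h1 : |((s i a : ℤ) : ℝ)| ≤ ∑ a, |((s i a : ℤ) : ℝ)| :=
          Finset.single_le_sum (f := fun a => |((s i a : ℤ) : ℝ)|) (fun a _ => abs_nonneg _)
            (Finset.mem_univ a)
        have h2 : ∑ a, |((s i a : ℤ) : ℝ)| ≤ ∑ i, ∑ a, |((s i a : ℤ) : ℝ)| :=
          Finset.single_le_sum (f := fun i => ∑ a, |((s i a : ℤ) : ℝ)|)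
            (fun i _ => Finset.sum_nonneg fun a _ => abs_nonneg _) (Finset.mem_univ i)
        linarith [abs_nonneg (D : ℝ)]
    obtain ⟨c1, hc1⟩ := pow_unbounded_of_one_lt x (by norm_num : (1 : ℝ) < 2)
    exact ⟨c1, hx.1.trans hc1.le, fun i a => (hx.2 i a).trans hc1.le⟩
  obtain ⟨δ', c', hcomb⟩ := algB_comb hPOL n δ c1
  obtain ⟨C', hC', hmain⟩ := h n' (z ∘ e) (fun k => halg (e k)) hli (max δ δ') l c p q hp hq
  refine ⟨(c' + 1 : ℕ) * C', by positivity, ?_⟩
  intro H hH A hA N hN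
  have hH1 : (1 : ℝ) ≤ H := by linarith
  let A' : Fin (n' + 1) → Matrix (Fin l) (Fin c) ℂ := fun k => Fin.cases (A 0)
    (fun a => Matrix.of fun i j => ((D : ℂ))⁻¹ * ∑ t : Fin n, (s t a : ℂ) * A t.succ i j) k
  have hA'0 : A' 0 = A 0 := rfl
  have hA's : ∀ (a : Fin n') i j, A' a.succ i j =
      ((D : ℂ))⁻¹ * ∑ t : Fin n, (s t a : ℂ) * A t.succ i j := fun a i j => rfl
  have hHc : H ≤ H ^ (c' + 1) := by
    calc H = H ^ 1 := (pow_one H).symm
      _ ≤ H ^ (c' + 1) := pow_le_pow_right₀ hH1 (by omega)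
  have hA'B : ∀ k i j, AlgB (max δ δ') (H ^ (c' + 1)) (A' k i j) := by
    intro k i j
    refine Fin.cases ?_ (fun a => ?_) k
    · exact algB_mo (hA 0 i j) (le_max_left _ _) hHc
    · rw [hA's]
      exact algB_mo (hcomb D (fun t => s t a) hD hc1D (fun t => hc1s t a) H hH
        (fun t => A t.succ i j) (fun t => hA _ i j)) (le_max_right _ _)
        (pow_le_pow_right₀ hH1 (by omega))
  have hA'K : ∀ a, e a ∈ K → A' a.succ = A (e a).succ := by
    intro a ha
    ext i j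
    rw [hA's]
    have h1 : ∑ t : Fin n, (s t a : ℂ) * A t.succ i j = (D : ℂ) * A (e a).succ i j := by
      rw [Finset.sum_eq_single (e a)]
      · rw [hcol a ha (e a), if_pos rfl]
      · intro t _ ht
        rw [hcol a ha t, if_neg ht]
        simp
      · intro hx
        exact absurd (Finset.mem_univ _) hx
    rw [h1, inv_mul_cancel_left₀ hDc]
  have hMv : MvC z A = MvC (z ∘ e) A' := by
    funext i j
    unfold MvC
    rw [hA'0]
    congr 1
    have h1 : ∀ a : Fin n', (z ∘ e) a * A' a.succ i j =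
        ((D : ℂ))⁻¹ * ∑ t : Fin n, ((s t a : ℂ) * z (e a)) * A t.succ i j := by
      intro a
      rw [hA's, Function.comp_apply, mul_left_comm, Finset.mul_sum]
      congr 1
      refine Finset.sum_congr rfl fun t _ => ?_
      ring
    rw [Finset.sum_congr rfl fun a _ => h1 a, ← Finset.mul_sum, Finset.sum_comm]
    have h2 : ∀ t : Fin n, ∑ a : Fin n', ((s t a : ℂ) * z (e a)) * A t.succ i j =
        (D : ℂ) * (z t * A t.succ i j) := by
      intro t
      rw [← Finset.sum_mul, ← hrel t, mul_assoc]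
    rw [Finset.sum_congr rfl fun t _ => h2 t, ← Finset.mul_sum, inv_mul_cancel_left₀ hDc]
  have hcond : ∀ (V : Submodule ℂ (Fin l → ℂ)) (U : Submodule ℂ (Fin c → ℂ)),
      Into Set.univ A' V U → N ≤ p * (l - finrank ℂ V) + q * finrank ℂ U := by
    intro V U hVU
    apply hN V U
    intro k hk y hy
    rcases hk with hk | ⟨k0, hk0, rfl⟩
    · rw [Set.mem_singleton_iff.1 hk, ← hA'0]
      exact hVU 0 (Set.mem_univ _) y hy
    · obtain ⟨a, rfl⟩ := hKe k0 hk0
      rw [← hA'K a hk0]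
      exact hVU _ (Set.mem_univ _) y hy
  obtain ⟨m, I, J, hm, hdet⟩ := hmain (H ^ (c' + 1)) (hH.trans hHc) A' hA'B N hcond
  refine ⟨m, I, J, hm, ?_⟩
  rw [hMv]
  have h3 : (H ^ (c' + 1)) ^ C' = H ^ (((c' + 1 : ℕ) : ℝ) * C') := by
    rw [Real.rpow_mul (by linarith), Real.rpow_natCast]
  rw [← h3]
  exact hdet

end Pool.Agent.H89.PER
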